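import Pool.Agent.Run7.h668.TK.Iface

/-! Pieces CZR and CAR of project TK (helper668). -/

set_option autoImplicit false

namespace Pool.Agent.Run7.h580.TK

open Pool.Agent.Run7.h668.TK

theorem t_CZR : S_CZR := by
  intro ℓ
  induction ℓ with
  | nil =>
    intro A b hb
    simp only [List.sum_nil] at hb
    change (∑ e ∈ Finset.range (A + 1), if e ≤ b ∧ b + (b - e) ≤ ([] : List ℕ).sum then
      cnt [] (b - e) else 0) = 0
    refine Finset.sum_eq_zero fun e _ => ?_
    rw [if_neg]
    simp only [List.sum_nil]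
    omega
  | cons B ℓ ih =>
    intro A b hb
    rw [List.sum_cons] at hb
    change (∑ e ∈ Finset.range (B + 1), if e ≤ b ∧ b + (b - e) ≤ (ℓ ++ [A]).sum then
      cnt (ℓ ++ [A]) (b - e) else 0) = 0
    refine Finset.sum_eq_zero fun e he => ?_
    rw [Finset.mem_range] at he
    split_ifs with h
    · exact ih A (b - e) (by omega)
    · rfl

lemma card_fiber (D : YoungDiagram) (T : ℕ → ℕ → ℕ) (v : ℕ) :
    Nat.card {c : ℕ × ℕ // c ∈ D ∧ T c.1 c.2 = v} =
      (D.cells.filter fun c => T c.1 c.2 = v).card := by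
  rw [← Nat.card_eq_finsetCard]
  refine Nat.card_congr (Equiv.subtypeEquivRight fun c => ?_)
  rw [Finset.mem_filter, YoungDiagram.mem_cells]

theorem t_CAR : S_CAR := by
  intro n D A hA T hT
  have h1 : ∀ c ∈ D.cells, (fun c : ℕ × ℕ => T c.1 c.2) c ∈ Finset.range n := by
    intro c hc
    by_contra hcon
    rw [Finset.mem_range, not_lt] at hcon
    have h2 := hT (T c.1 c.2)
    rw [hA _ hcon, card_fiber D (fun i j => T i j), Finset.card_eq_zero] at h2
    have h3 : c ∈ (D.cells.filter fun c' : ℕ × ℕ => T c'.1 c'.2 = T c.1 c.2) :=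
      Finset.mem_filter.2 ⟨hc, rfl⟩
    rw [h2] at h3
    exact absurd h3 (Finset.notMem_empty c)
  have h4 := Finset.card_eq_sum_card_fiberwise h1
  change D.cells.card = _
  rw [h4]
  refine Finset.sum_congr rfl fun v _ => ?_
  rw [← hT v, card_fiber D (fun i j => T i j)]

end Pool.Agent.Run7.h580.TK
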